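import Pool.Agent.Q175.CG.Exist

set_option autoImplicit false

/-!
# MP_335bcb_an: central sequences for cloning groups built from an involution

Definitions (in `Pool.Agent.Q175.CG.Defs`): `BT`, `BT.size`, `BT.caret` (finite rooted binary trees,
number of leaves, attaching a caret at the `k`-th leaf), `clone` (the cloning map `κ_k`),
`Triple`, `Adm`, `Step`, `IsCloningGroup φ ps Γ cls` (`Γ` is the group of the classes of triples;
`ps = false`: the group `𝒯(∏^*(G))`, `ps = true`: the group `𝒯(Ψ^*(G))`), `vN Γ` (the group von
Neumann algebra `L(Γ)` on `ℓ²(Γ)`), `dirac Γ` (the trace vector), `IsCentralUnitary`, `HasGamma`,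
`HasNoncommutingCentralSequences`.
-/

namespace Pool.Agent.Results.MP_335bcb_an.CentralSequences

open Pool.Agent.Q175.CG

/-- For every group `G` and every automorphism `φ` of `G` with `φ² = id`, the groups `𝒯(∏^*(G))`
(`ps = false`) and `𝒯(Ψ^*(G))` (`ps = true`) exist, and their group von Neumann algebras have
property Gamma and contain two central sequences of unitaries `u_j`, `v_j` (of trace zero) with
`‖u_j v_j - v_j u_j‖₂ = √2` for all `j`. -/
theorem result (G : Type) [Group G] (φ : G →* G) (hφ : ∀ g, φ (φ g) = g) (ps : Bool) :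
    (∃ (Γ : Type) (_ : Group Γ) (cls : {t : Triple G // Adm ps t} → Γ),
      IsCloningGroup φ ps Γ cls) ∧
    ∀ (Γ : Type) [Group Γ] (cls : {t : Triple G // Adm ps t} → Γ),
      IsCloningGroup φ ps Γ cls → HasGamma Γ ∧ HasNoncommutingCentralSequences Γ :=
  main G φ hφ ps

end Pool.Agent.Results.MP_335bcb_an.CentralSequences
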